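import Mathlib
import Pool.Agent.GPA.PolDefs
import Pool.Agent.GPA.Model

/-!
The theory ZFC + `𝔠 > ℵ₂` + GP(all) has a model.
-/

namespace Pool.Agent.Results.MP_391e9e_lc.GoldsternAll

open Pool.Agent.SigB Pool.Agent.GPA

/-- There is a model `N` of ZFC in which Goldstern's principle holds for all sets and all Polish
probability spaces, and the continuum is greater than `ℵ₂`. -/
theorem result : ∃ (N : Type 1) (_ : Membership N N),
    IsZFC N ∧ GPAll N ∧ ContinuumGtAlephTwo N :=
  exists_model

end Pool.Agent.Results.MP_391e9e_lc.GoldsternAll
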